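import Pool.Agent.Q31.SP.Final

set_option autoImplicit false

namespace Pool.Agent.Results.MP_317377_al.SpreadOne

open Pool.Agent.Q31.SP

/-- A group `G` is `k`-spread if for all nontrivial `x 0, …, x (k - 1)` in `G` there is one `y` in
`G` such that `G` is generated by `x i` and `y`, for every `i`. -/
def KSpread (G : Type) [Group G] (k : ℕ) : Prop :=
  ∀ x : Fin k → G, (∀ i, x i ≠ 1) → ∃ y : G, ∀ i, Subgroup.closure {x i, y} = ⊤

theorem KSpread.two {G : Type} [Group G] {k : ℕ} (h : KSpread G k) (hk : 2 ≤ k) :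
    KSpread G 2 := by
  intro x hx
  obtain ⟨y, hy⟩ := h (fun i => if (i : ℕ) = 0 then x 0 else x 1) (fun i => by
    split_ifs
    · exact hx 0
    · exact hx 1)
  refine ⟨y, fun i => ?_⟩
  fin_cases i
  · have := hy ⟨0, by omega⟩
    simpa using this
  · have := hy ⟨1, by omega⟩
    simpa using this

/-- transfer to the ambient group -/
theorem closure_top_iff {P : Type} [Group P] {K : Subgroup P} (x y : K) :
    Subgroup.closure {x, y} = ⊤ ↔ K ≤ Subgroup.closure {(x : P), (y : P)} := by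
  have h : (Subgroup.closure ({x, y} : Set K)).map K.subtype = Subgroup.closure {(x : P), (y : P)} := by
    rw [MonoidHom.map_closure, Set.image_pair]
    rfl
  constructor
  · intro h1
    rw [← h, h1]
    intro z hz
    exact ⟨⟨z, hz⟩, trivial, rfl⟩
  · intro h1
    rw [eq_top_iff]
    rintro ⟨z, hz⟩ -
    have h2 := h1 hz
    rw [← h] at h2
    obtain ⟨w, hw, hwz⟩ := h2
    have : w = ⟨z, hz⟩ := Subtype.ext hwz
    rw [← this]; exact hw

/-- There is a group whose spread is exactly one. -/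
theorem result : ∃ (G : Type) (_ : Group G), IsGreatest {k : ℕ | KSpread G k} 1 := by
  refine ⟨Gr, inferInstance, fun x hx => ?_, fun k hk => ?_⟩
  · obtain ⟨y, hy, h⟩ := one_spread (x 0).2 (fun h => hx 0 (Subtype.ext h))
    refine ⟨⟨y, hy⟩, fun i => ?_⟩
    have hi : i = 0 := Subsingleton.elim _ _
    subst hi
    exact (closure_top_iff _ _).2 h
  · by_contra hcon
    have h2 : KSpread Gr 2 := KSpread.two hk (by omega)
    obtain ⟨x₁, h₁, x₂, h₂, n₁, n₂, hno⟩ := not_two
    obtain ⟨z₁, e₁⟩ : ∃ z : Gr, (z : Equiv.Perm ℝ) = x₁ := ⟨⟨x₁, h₁⟩, rfl⟩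
    obtain ⟨z₂, e₂⟩ : ∃ z : Gr, (z : Equiv.Perm ℝ) = x₂ := ⟨⟨x₂, h₂⟩, rfl⟩
    obtain ⟨y, hy⟩ := h2 ![z₁, z₂] (fun i => by
      fin_cases i
      · intro h
        have h' : z₁ = 1 := h
        exact n₁ (by rw [← e₁, h']; rfl)
      · intro h
        have h' : z₂ = 1 := h
        exact n₂ (by rw [← e₂, h']; rfl))
    have q₁ : Subgroup.closure {z₁, y} = ⊤ := hy 0
    have q₂ : Subgroup.closure {z₂, y} = ⊤ := hy 1
    rw [closure_top_iff, e₁] at q₁
    rw [closure_top_iff, e₂] at q₂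
    exact hno y y.2 ⟨q₁, q₂⟩

end Pool.Agent.Results.MP_317377_al.SpreadOne
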